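import Pool.Agent.Helper15_SIQ.Stmts
import Pool.Agent.Helper15_SIU.Stmts

/-!
# MP_021b97_an, Q1, module NDG
-/

set_option autoImplicit false

open MeasureTheory Filter Topology

namespace Pool.Agent.SIQ.H47

open Pool.Agent.SIU

theorem finrank_C3 : Module.finrank ℝ C3 = 6 := by
  unfold C3
  rw [Module.finrank_pi_fintype]
  simp [Complex.finrank_real_complex]

/-- forms of degree larger than 6 on `ℂ³` vanish -/
theorem alt_zero {k : ℕ} (hk : 6 < k) (a : Alt 3 k) : a = 0 := by
  ext v
  have h : ¬ LinearIndependent ℝ v := by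
    intro hl
    have h1 := hl.fintype_card_le_finrank
    rw [Fintype.card_fin, finrank_C3] at h1
    omega
  exact a.toAlternatingMap.map_linearDependent v h

theorem pull_cont {k : ℕ} {a : E6 → Alt 6 k} (ha : ContinuousOn a X1.U) :
    Continuous (fun x => Toric.pull X1.σ a x) := by
  have h1 : (fun x => Toric.pull X1.σ a x) = fun x =>
      (ContinuousAlternatingMap.compContinuousLinearMapCLM (inc1.restrictScalars ℝ)
        : Alt 6 k →L[ℝ] Alt 3 k) (a (X1.σ x)) := by
    funext x
    exact pull_sigma1 a x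
  rw [h1]
  refine (ContinuousLinearMap.continuous _).comp ?_
  have h2 : Continuous X1.σ := contDiff_sigma1.continuous
  exact ha.comp_continuous h2 fun x => sigma1_mem_U x

/-- the point with given affine coordinates -/
theorem act_sigma (z : E6) (hz : ∀ i, z (hi i) ≠ 0) :
    X1.act (fun i => z (hi i)) (X1.σ (chp z)) = z := by
  apply ext6 <;> intro i
  · rw [act1_lo, sigma1_lo]
    show z (hi i) * (z (lo i) / z (hi i)) = z (lo i)
    field_simp [hz i]
  · rw [act1_hi, sigma1_hi, mul_one]

theorem wedge_cont (hwdg : WdgStmt) {k l : ℕ} (f : C3 → Alt 3 k) (hf : Continuous f)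
    (b : Alt 3 l) : Continuous fun x => wedge (f x) b := by
  have h1 : Continuous fun p : Alt 3 k × Alt 3 l => wedge p.1 p.2 :=
    ((hwdg 3 k l).2.2.2.2.1 0).continuous
  have h2 : Continuous fun x => ((f x, b) : Alt 3 k × Alt 3 l) := hf.prodMk continuous_const
  have h3 := Continuous.comp h1 h2
  exact h3

theorem chart_zero (hcom : ComStmt) (hcht : ChtStmt) (hwdg : WdgStmt) {k l : ℕ} (hkl : k + l = 6)
    (a : E6 → Alt 6 k) (hac : ContinuousOn a X1.U)
    (O : Set E6) (hO : IsOpen O) (hS : Sat O)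
    (h : ∀ β : X1.Form l, X1.Smooth β.1 → (∀ z, z ∉ O → β.1 z = 0) → X1.pair a β.1 = 0)
    (x0 : C3) (hx0 : X1.σ x0 ∈ O) : Toric.pull X1.σ a x0 = 0 := by
  have hσc : Continuous X1.σ := contDiff_sigma1.continuous
  have hopen : IsOpen (X1.σ ⁻¹' O) := hO.preimage hσc
  apply (hcom k l hkl).2.1
  intro b
  -- the function
  set g : C3 → ℝ := fun x => wedge (Toric.pull X1.σ a x) b (stdb 3 (k + l)) with hg
  have hgc : Continuous g := by
    have h2 := wedge_cont hwdg _ (pull_cont hac) b
    exact h2.eval_const (stdb 3 (k + l))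
  have hint : ∀ χ : C3 → ℝ, ContDiff ℝ ((⊤ : ℕ∞) : WithTop ℕ∞) χ → HasCompactSupport χ →
      tsupport χ ⊆ X1.σ ⁻¹' O → ∫ x, χ x • g x = 0 := by
    intro χ hχ hχs hχO
    set γ : C3 → Alt 3 l := fun x => χ x • b with hγ
    have hγs : HasCompactSupport γ := hχs.smul_right
    have hγd : ContDiff ℝ ((⊤ : ℕ∞) : WithTop ℕ∞) γ := hχ.smul contDiff_const
    obtain ⟨c1, c2, c3, c4, c5, c6, -, -⟩ := hcht l γ hγs hγd.continuous
    let β : X1.Form l := ⟨chf γ, c1, c2, c3⟩
    have hβO : ∀ z, z ∉ O → β.1 z = 0 := by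
      intro z hz
      by_cases hh : ∀ i, z (hi i) ≠ 0
      · apply c6 z hh
        have h1 : X1.σ (chp z) ∉ O := by
          intro hin
          have h2 := hS _ hin (fun i => z (hi i)) hh
          rw [act_sigma z hh] at h2
          exact hz h2
        have h3 : χ (chp z) = 0 := by
          apply image_eq_zero_of_notMem_tsupport
          intro hm
          exact h1 (hχO hm)
        show χ (chp z) • b = 0
        rw [h3, zero_smul]
      · show chf γ z = 0
        unfold chf
        rw [if_neg hh]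
    have h1 := h β (c5 hγd) hβO
    have h2 : X1.pair a β.1 = ∫ x, χ x • g x := by
      unfold Toric.pair
      congr 1
      funext x
      show wedge (Toric.pull X1.σ a x) (Toric.pull X1.σ (chf γ) x) (stdb 3 (k + l)) = _
      rw [c4 x]
      show wedge (Toric.pull X1.σ a x) (χ x • b) (stdb 3 (k + l)) = _
      rw [((hwdg 3 k l).2.2.1 (χ x) _ b).2]
      rfl
    rw [← h2]
    exact h1
  have hae : ∀ᵐ x, x ∈ X1.σ ⁻¹' O → g x = 0 :=
    IsOpen.ae_eq_zero_of_integral_contDiff_smul_eq_zero hopen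
      (hgc.locallyIntegrable.locallyIntegrableOn _) hint
  have hae' : g =ᵐ[volume.restrict (X1.σ ⁻¹' O)] fun _ => (0 : ℝ) := by
    rw [Filter.EventuallyEq, ae_restrict_iff' hopen.measurableSet]
    exact hae
  exact Measure.eqOn_open_of_ae_eq hae' hopen hgc.continuousOn continuousOn_const hx0

theorem ndg (hcom : ComStmt) (hcht : ChtStmt) (hwdg : WdgStmt) (hcpt : CptStmt) : NdgStmt := by
  refine ⟨?_, ?_⟩
  · intro k l hkl a hac hab O hO hS h
    -- in the chart
    have key : ∀ z ∈ X1.U ∩ O, (∀ i, z (hi i) ≠ 0) → a z = 0 := by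
      intro z hz hh
      have h1 : X1.σ (chp z) ∈ O := by
        have h2 := hS z hz.2 (fun i => (z (hi i))⁻¹) fun i => inv_ne_zero (hh i)
        have h3 : X1.act (fun i => (z (hi i))⁻¹) z = X1.σ (chp z) := by
          conv_lhs => rw [← act_sigma z hh]
          rw [act_sigma z hh]
          have h4 := act1_inv (c := fun i => z (hi i)) hh (X1.σ (chp z))
          rw [act_sigma z hh] at h4
          exact h4
        rw [h3] at h2
        exact h2
      obtain ⟨-, -, -, -, -, -, c7, -⟩ := hcht l (fun _ => 0)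
        (by
          have : HasCompactSupport (0 : C3 → Alt 3 l) := HasCompactSupport.zero
          exact this) continuous_const
      rw [c7 k a hab z hh, chart_zero hcom hcht hwdg hkl a hac O hO hS h _ h1]
      rfl
    intro z hz
    -- density
    let w : E6 := ![0, 1, 0, 1, 0, 1]
    have hw : ∀ i, w (hi i) = 1 := by
      intro i
      fin_cases i <;> rfl
    have hcont : Continuous fun ε : ℝ => z + (ε : ℂ) • w := by fun_prop
    have hz0 : z + ((0 : ℝ) : ℂ) • w = z := by simp
    have hopen : IsOpen (X1.U ∩ O) := isOpen_U1.inter hO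
    have hac' : ContinuousAt a z := hac.continuousAt (isOpen_U1.mem_nhds hz.1)
    have ht : Tendsto (fun ε : ℝ => a (z + (ε : ℂ) • w)) (𝓝[>] 0) (𝓝 (a z)) := by
      have h1 : Tendsto (fun ε : ℝ => z + (ε : ℂ) • w) (𝓝[>] 0) (𝓝 z) := by
        have h2 := (hcont.tendsto 0)
        rw [hz0] at h2
        exact h2.mono_left nhdsWithin_le_nhds
      exact hac'.tendsto.comp h1
    have hev : ∀ᶠ ε : ℝ in 𝓝[>] 0, a (z + (ε : ℂ) • w) = 0 := by
      have h1 : ∀ᶠ ε : ℝ in 𝓝[>] 0, z + (ε : ℂ) • w ∈ X1.U ∩ O := by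
        have h2 := (hcont.tendsto 0)
        rw [hz0] at h2
        exact (h2.mono_left nhdsWithin_le_nhds).eventually (hopen.mem_nhds hz)
      have h2 : ∀ᶠ ε : ℝ in 𝓝[>] 0, ∀ i, (z + (ε : ℂ) • w) (hi i) ≠ 0 := by
        rw [eventually_all]
        intro i
        by_cases hi0 : z (hi i) = 0
        · filter_upwards [self_mem_nhdsWithin] with ε hε
          show z (hi i) + (ε : ℂ) * w (hi i) ≠ 0
          rw [hi0, hw, zero_add, mul_one]
          exact_mod_cast (Set.mem_Ioi.mp hε).ne'
        · have h3 : Continuous fun ε : ℝ => z (hi i) + (ε : ℂ) * w (hi i) := by fun_prop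
          have h4 : ∀ᶠ ε : ℝ in 𝓝 0, z (hi i) + (ε : ℂ) * w (hi i) ≠ 0 := by
            apply h3.continuousAt.eventually_ne
            simpa using hi0
          exact h4.filter_mono nhdsWithin_le_nhds
      filter_upwards [h1, h2] with ε h3 h4
      exact key _ h3 h4
    have ht0 : Tendsto (fun ε : ℝ => a (z + (ε : ℂ) • w)) (𝓝[>] 0) (𝓝 0) :=
      tendsto_const_nhds.congr' (hev.mono fun ε h => h.symm)
    exact tendsto_nhds_unique ht ht0
  · intro k hk a hab z hz
    rw [(hcpt.1 k a hab).2 z hz, alt_zero hk (cmp a z)]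
    rfl

end Pool.Agent.SIQ.H47
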