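import Pool.Agent.Helper15_SIQ.Stmts
import Pool.Agent.Helper15_SIU.Stmts

/-!
# MP_021b97_an, Q1, module PR3
-/

set_option autoImplicit false

open MeasureTheory Filter Topology

namespace Pool.Agent.SIQ.H47

open Pool.Agent.SIU

theorem rho_U {δ : Fin 3 → ℝ} (hδ : Ad δ) {g : E6} (hg : g ∉ X1.U) : rho δ g = 0 := by
  rw [mem_U1'] at hg
  push Not at hg
  obtain ⟨i, hi⟩ := hg
  have h0 : nn g i = 0 := le_antisymm hi (nn_nonneg g i)
  unfold rho
  apply Finset.prod_eq_zero (Finset.mem_univ i)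
  rw [h0, Real.sqrt_zero, div_zero, th_zero (hδ i).1 (by linarith [(hδ i).2]), zero_mul]

theorem nn_qm (g z : E6) (i : Fin 3) : nn (qm g z) i = nn g i * nn z i := by
  unfold nn
  rw [qm_lo, qm_hi]
  simp only [← Complex.normSq_eq_norm_sq, Complex.normSq_apply, Complex.sub_re, Complex.sub_im,
    Complex.add_re, Complex.add_im, Complex.mul_re, Complex.mul_im, Complex.conj_re,
    Complex.conj_im]
  ring

theorem qm_U {g z : E6} (hg : g ∈ X1.U) (hz : z ∈ X1.U) : qm g z ∈ X1.U := by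
  rw [mem_U1'] at *
  intro i
  rw [nn_qm]
  exact mul_pos (hg i) (hz i)

theorem extDeriv_contOn {k : ℕ} {η : E6 → Alt 6 k} (h : X1.Smooth η) :
    ContinuousOn (extDeriv η) X1.U := by
  have h1 : ContinuousOn (fderiv ℝ η) X1.U := by
    have h2 : ContDiffOn ℝ ((⊤ : ℕ∞) : WithTop ℕ∞) η X1.U := h
    exact h2.continuousOn_fderiv_of_isOpen isOpen_U1 (by exact_mod_cast le_top)
  have h3 : extDeriv η = fun x =>
      (ContinuousAlternatingMap.alternatizeUncurryFinCLM ℝ (Fin 6 → ℂ) ℝ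
        : ((Fin 6 → ℂ) →L[ℝ] Alt 6 k) →L[ℝ] Alt 6 (k + 1)) (fderiv ℝ η x) := by
    funext x
    rfl
  rw [h3]
  exact (ContinuousLinearMap.continuous _).comp_continuousOn h1

theorem toF_ext {k : ℕ} {ω ω' : E6 → Alt 6 k} (h : ∀ z ∈ X1.U, ω z = ω' z) :
    toF ω = toF ω' := by
  classical
  have h1 : (fun z => if z ∈ X1.U then ω z else 0) = fun z => if z ∈ X1.U then ω' z else 0 := by
    funext z
    by_cases hz : z ∈ X1.U
    · rw [if_pos hz, if_pos hz, h z hz]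
    · rw [if_neg hz, if_neg hz]
  unfold toF
  by_cases hm : (fun z => if z ∈ X1.U then ω z else 0) ∈ X1.Form k
  · have hm' : (fun z => if z ∈ X1.U then ω' z else 0) ∈ X1.Form k := by rw [← h1]; exact hm
    rw [dif_pos (by convert hm), dif_pos (by convert hm')]
    apply Subtype.ext
    convert h1
  · have hm' : ¬ (fun z => if z ∈ X1.U then ω' z else 0) ∈ X1.Form k := by rw [← h1]; exact hm
    rw [dif_neg (by convert hm), dif_neg (by convert hm')]

theorem pair_congr {k l : ℕ} {a : E6 → Alt 6 k} {b b' : E6 → Alt 6 l}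
    (h : ∀ z ∈ X1.U, b z = b' z) : X1.pair a b = X1.pair a b' := by
  unfold Toric.pair
  congr 1
  funext x
  unfold Toric.pull
  rw [h _ (sigma1_mem_U x)]

/-- currents applied to averages of exact forms -/
theorem av_exact (hgsf : GsfStmt) (hint : IntStmt) {δ : Fin 3 → ℝ} (hδ : Ad δ)
    {q' : ℕ} (T : X1.Current (q' + 1)) (hT : X1.IsCont T) (hcl : X1.ClosedCur T)
    (β : X1.Form (2 * q' + 1)) (hβ : X1.Smooth β.1) (γ : X1.Form (2 * (q' + 1)))
    (hγ : ∀ z ∈ X1.U, γ.1 z = (extDeriv β.1 z : Alt 6 (2 * q' + 1 + 1))) :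
    T (toF (Av δ γ.1)) = 0 := by
  rw [(hint δ hδ (q' + 1) T hT γ).2]
  have h0 : (fun g : E6 => rho δ g * T (toF (gs g γ.1))) = fun _ => 0 := by
    funext g
    by_cases hg : g ∈ X1.U
    swap
    · rw [rho_U hδ hg, zero_mul]
    obtain ⟨g1, g2, g3, g4, -⟩ := hgsf g hg
    have hbc : ContinuousOn (gs g β.1) X1.U := g1 _ _ β.2.1
    have hbb : X1.BasicOn X1.U (gs g β.1) := g2 _ _ β.2.2.1
    have hη : ∀ z ∈ X1.U, (toF (gs g β.1)).1 z = gs g β.1 z := fun z hz => toF_apply hbc hbb hz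
    have hηs : X1.Smooth (toF (gs g β.1)).1 :=
      (show ContDiffOn ℝ ((⊤ : ℕ∞) : WithTop ℕ∞) (gs g β.1) X1.U from g3 _ _ hβ).congr hη
    have hTz : T (toF (gs g γ.1)) = 0 := by
      apply hcl (2 * q' + 1) rfl (toF (gs g β.1)) hηs
      intro z hz v
      have hγc : ContinuousOn (gs g γ.1) X1.U := g1 _ _ γ.2.1
      have hγb : X1.BasicOn X1.U (gs g γ.1) := g2 _ _ γ.2.2.1
      rw [toF_apply hγc hγb hz]
      have h1 : extDeriv (toF (gs g β.1)).1 z = extDeriv (gs g β.1) z := by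
        apply Filter.EventuallyEq.extDeriv_eq
        filter_upwards [isOpen_U1.mem_nhds hz] with w hw
        exact hη w hw
      rw [h1]
      have h2 : extDeriv (gs g β.1) z = gs g (extDeriv β.1) z :=
        g4 _ β.1 ((show ContDiffOn ℝ ((⊤ : ℕ∞) : WithTop ℕ∞) β.1 X1.U from hβ).differentiableOn
          (by norm_num)) z hz
      rw [h2]
      have hz' : qm g z ∈ X1.U := qm_U hg hz
      show (γ.1 (qm g z)) (fun i => qmL g (v i)) = (extDeriv β.1 (qm g z)) (fun i => qmL g (v i))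
      rw [hγ _ hz']
      rfl
    rw [hTz, mul_zero]
  rw [h0]
  simp

theorem pr3 (hbsd : BsdStmt) (hgsf : GsfStmt) (hint : IntStmt) (hkkp : KkpStmt)
    (hndg : NdgStmt) (hstx : StxStmt) : Pr3Stmt := by
  intro δ hδ p q hpq T hT hcl z hz
  have hB := hbsd 6 3 3 X1 X1.U isOpen_U1 sat_U
  obtain ⟨k1, k2, -, -, -⟩ := hkkp δ hδ p q hpq T hT
  set K := KK δ p q T with hK
  have hKs : ContDiffOn ℝ ((⊤ : ℕ∞) : WithTop ℕ∞) K.1 X1.U := k1
  have hKd : DifferentiableOn ℝ K.1 X1.U := hKs.differentiableOn (by norm_num)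
  have hdb : X1.BasicOn X1.U (extDeriv K.1) := hB.1 _ _ hKd K.2.2.1
  have hdc : ContinuousOn (extDeriv K.1) X1.U := extDeriv_contOn k1
  rcases Nat.eq_zero_or_pos q with hq | hq
  · exact hndg.2 _ (by omega) _ hdb z hz
  obtain ⟨q', rfl⟩ : ∃ q', q = q' + 1 := ⟨q - 1, by omega⟩
  refine hndg.1 (2 * p + 1) (2 * q' + 1) (by omega) _ hdc hdb Set.univ isOpen_univ
    (fun y _ c _ => Set.mem_univ _) ?_ z ⟨hz, Set.mem_univ _⟩
  intro β hβ _
  have hβs : ContDiffOn ℝ ((⊤ : ℕ∞) : WithTop ℕ∞) β.1 X1.U := hβ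
  have hβd : DifferentiableOn ℝ β.1 X1.U := hβs.differentiableOn (by norm_num)
  have h1 := hstx (2 * p) (2 * q' + 1) (by omega) K.1 β.1 (hKs.of_le (by exact_mod_cast le_top))
    K.2.2.1 (hβs.of_le (by exact_mod_cast le_top)) β.2.2.1
  have hec : ContinuousOn (extDeriv β.1) X1.U := extDeriv_contOn hβ
  have heb : X1.BasicOn X1.U (extDeriv β.1) := hB.1 _ _ hβd β.2.2.1
  set γ : X1.Form (2 * (q' + 1)) := (toF (extDeriv β.1) : X1.Form (2 * q' + 1 + 1)) with hγd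
  have hγ : ∀ z ∈ X1.U, γ.1 z = (extDeriv β.1 z : Alt 6 (2 * q' + 1 + 1)) :=
    fun z hz => toF_apply hec heb hz
  have h2 : X1.pair K.1 (extDeriv β.1) = 0 := by
    have h3 : X1.pair K.1 (extDeriv β.1) = X1.pair K.1 γ.1 :=
      pair_congr fun z hz => (hγ z hz).symm
    rw [h3, k2 γ]
    exact av_exact hgsf hint hδ T hT hcl β hβ γ hγ
  rw [h2, mul_zero, add_zero] at h1
  exact h1

end Pool.Agent.SIQ.H47
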